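import Mathlib
import Pool.Agent.H16.Jump

set_option autoImplicit false

namespace Pool.Agent.Results.MP_39759c_lc.Counter

open Pool.Agent.H16.Jump

/-- A diversity-seeking jump game on a tree with 22 nodes, 21 agents of two types (both
present) and one empty node that is not weakly acyclic. -/
theorem result :
    ∃ (G : SimpleGraph (Fin 22)) (τ : Fin 21 → Fin 2),
      G.IsTree ∧ Function.Surjective τ ∧ ¬ WeaklyAcyclic G τ :=
  ⟨G0, ty, tree, surj, notWA⟩

end Pool.Agent.Results.MP_39759c_lc.Counter
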